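import Pool.Agent.Run7.h583.C1a
import Pool.Agent.Run7.h583.T.Top

/-! The autocorrelation constant `C_{1a}` is at least `7 / 5`. -/

set_option autoImplicit false

/-- `C_{1a} ≥ 7 / 5`: every nonnegative square-integrable `f` satisfies
`sup_{|t| ≤ 1/2} (f * f)(t) ≥ (7 / 5) (∫_{[-1/4, 1/4]} f)²`. -/
theorem Pool.Agent.Results.MP_834949_an.LowerBound.result : 7 / 5 ≤ Run7.h583.C1a := by
  have h := Run7.h583.le_C1a (L := 7 / 10) fun M m hg => by
    have h := Run7.h583.Claim.final Run7.h583.T.root hg
    norm_num at h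
    linarith
  norm_num at h
  linarith
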